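import Pool.Agent.X264.MW.Main

/-!
# Finite generation in weight `d`, degrees `0 ≤ i ≤ 2 d`, implies it in all weights `≥ d`
-/

set_option autoImplicit false

open Pool.Agent.X264.MW

namespace Pool.Agent.Results.MP_c71c7a_nt.AllWeights

universe u

/-- **All weights, all degrees.** Q1 (for all `X`, degrees `0 ≤ i ≤ 2 d`) holds if and only if
`H^i(X_et, ℤ^c(n))` is finitely generated for all `X`, all `n ≤ 0` and all `i ≤ -2 n` (also `i < 0`). -/
theorem result (T : Theory.{u}) (hT : T.HasProjectiveSpaces) :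
    (∀ X (i : ℤ), 0 ≤ i → i ≤ 2 * T.dim X → T.IsTopFG X i) ↔
      ∀ X (n i : ℤ), n ≤ 0 → i ≤ -2 * n → T.IsFG X n i := by
  have h := Theory.main hT 0
  simpa only [Nat.cast_zero, add_zero] using h

end Pool.Agent.Results.MP_c71c7a_nt.AllWeights
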