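import Pool.Agent.X310.FgA

/-!
# Finite generation in top weight for étale Galois coverings

Let `𝒳` be a proper, regular, connected arithmetic scheme of dimension `d`, and let a finite group `G` act freely on `𝒳`,
so that `𝒳 → 𝒳/D` is a finite étale Galois covering with the group `D` for the subgroups `D` of `G`; the schemes `𝒳/D`
are again proper, regular and connected of dimension `d`. The groups `H^i(𝒳_et, ℤ(d))` and `H^i((𝒳/D)_et, ℤ(d))` with
the restrictions and transfers are modelled by `T i : TransferData G`: restriction after transfer is the sum of the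
elements of `D`, transfer after restriction is the multiplication by the order of `D`, and the `n`-torsion subgroups are
finite (they are quotients of étale cohomology groups with finite coefficients). `Holds T d` is Q1 for `𝒳` and
`HoldsFor T d D` is Q1 for `𝒳/D`: finite generation for `0 ≤ i ≤ 2d`.

* Let the family `D i` of subgroups be rich: each irreducible `ℚ`-representation of `G` has a nonzero vector fixed by
  some `D i`. Then Q1 for `𝒳` is equivalent to Q1 for all the `𝒳/D i`; the same is true in each single degree.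
* If `G` has no irreducible representation in which only `1` has nonzero fixed vectors (if `G` is not a Frobenius
  complement; for example if `G` has a noncyclic subgroup of order `ℓ²` or `ℓℓ'`, `ℓ`, `ℓ'` primes), then Q1 for `𝒳` is
  equivalent to Q1 for the `𝒳/⟨g⟩`, `g ≠ 1`. So if `𝒳 → 𝒴` is a connected étale Galois covering with group `G`, `𝒳` a
  counterexample and no intermediate covering `≠ 𝒳` is a counterexample, then `G` is a Frobenius complement or trivial.
* Let `τ ∈ G`, `τ² = 1`. Q1 for `𝒳` is equivalent to Q1 for the quotients by `τ` and by the group `comms τ` generated by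
  the `g τ g⁻¹ τ⁻¹`; and to Q1 for `𝒳/⟨τ⟩` alone, if `τ ∈ comms τ`, for example if `G` is a nonabelian simple group.
-/

set_option autoImplicit false

namespace Pool.Agent.Results.MP_c71c7a_nt.FreeGroupActions

open Pool.Agent.X310.Rq Pool.Agent.X310.Fg

/-- Finite generation for the scheme in the degrees `0, …, 2d`. -/
def Holds {G : Type} [Group G] (T : ℕ → TransferData G) (d : ℕ) : Prop :=
  ∀ i, i ≤ 2 * d → Module.Finite ℤ (T i).A

/-- Finite generation for the quotient by `D` in the degrees `0, …, 2d`. -/
def HoldsFor {G : Type} [Group G] (T : ℕ → TransferData G) (d : ℕ) (D : Subgroup G) : Prop :=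
  ∀ i, i ≤ 2 * d → Module.Finite ℤ ((T i).B D)

theorem result {G : Type} [Group G] [Finite G] (T : ℕ → TransferData G) (d : ℕ) :
    (∀ (ι : Type) (D : ι → Subgroup G), IsRich D →
      (Holds T d ↔ ∀ j, HoldsFor T d (D j)) ∧
      ∀ i, Module.Finite ℤ (T i).A ↔ ∀ j, Module.Finite ℤ ((T i).B (D j))) ∧
    (¬ HasFreeRep G → (Holds T d ↔ ∀ g : G, g ≠ 1 → HoldsFor T d (Subgroup.zpowers g))) ∧
    (∀ τ : G, τ * τ = 1 →
      (Holds T d ↔ HoldsFor T d (Subgroup.zpowers τ) ∧ HoldsFor T d (comms τ)) ∧
      (τ ∈ comms τ → (Holds T d ↔ HoldsFor T d (Subgroup.zpowers τ)))) := by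
  have key : ∀ (ι : Type) (D : ι → Subgroup G), IsRich D → (Holds T d ↔ ∀ j, HoldsFor T d (D j)) := by
    intro ι D hD
    exact ⟨fun h j i hi => (fg_rich (T i) D hD).1 (h i hi) j, fun h i hi => (fg_rich (T i) D hD).2 fun j => h j i hi⟩
  refine ⟨fun ι D hD => ⟨key ι D hD, fun i => fg_rich (T i) D hD⟩, fun hG => ?_, fun τ hτ => ⟨?_, fun hm => ?_⟩⟩
  · rw [key _ _ (rich_of_not_free hG)]
    exact ⟨fun h g hg => h ⟨g, hg⟩, fun h g => h g.1 g.2⟩
  · rw [key _ _ (rich_pair hτ)]
    refine ⟨fun h => ⟨h true, h false⟩, ?_⟩
    rintro ⟨h1, h2⟩ (_ | _)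
    exacts [h2, h1]
  · rw [key _ _ (rich_single hτ hm)]
    exact ⟨fun h => h (), fun h _ => h⟩

end Pool.Agent.Results.MP_c71c7a_nt.FreeGroupActions
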