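import Pool.Agent.X308.L.Main

/-!
# MP_c71c7a_nt: finite generation in the degrees `0 ≤ i ≤ 2d` implies vanishing in negative degrees

`M` consists of the motivic cohomology `H^i(X, ℚ(n))` with rational coefficients and the étale
motivic cohomology `H^i(X_et, ℤ(n))`. The schemes `X` are proper, regular, connected arithmetic
schemes, and `d` is the dimension of `X`. The hypotheses are known facts: `P` is the push-forward
`H^(2d+j)(X_et, ℤ(d)) → H^(2e+j)(Y_et, ℤ(e))` for morphisms `X → Y`, which is functorial (for the
complexes `ℤ^c(0)` on proper schemes this is due to Geisser); the projective line over `X` is again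
such a scheme, of dimension `d + 1`, and has a section; and, for (B) only, `KnownProperties` lists the
properties of the groups `H^i(X, ℚ(n))` which are described in MP_b197b4_nt.NegativeDegrees, among
them `H^i(X_et, ℤ(d)) = H^i(X, ℚ(d))` for `i < 0`.

Theorem. (A) Q1, which concerns the degrees `0 ≤ i ≤ 2d` for all `X`, is equivalent to finite
generation of `H^i(X_et, ℤ(d))` for all `X` and all `i ≤ 2d`, and also to finite generation for all
`X` and all `i` with `2d - w(d) ≤ i ≤ 2d`, where `w` is any given unbounded function of `d`.
(B) Q1 implies `H^i(X, ℚ(n)) = 0` for all `X`, all `i < 0` and `n ≥ d`; it implies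
`H^i(F, ℚ(n)) = 0` for all finitely generated fields `F`, all `i < 0` and all `n` which are at least
the Kronecker dimension of `F`; and it implies `H^0(𝔽_p(t_1, …, t_d), ℚ(d)) = 0` and
`H^0(ℚ(t_1, …, t_(d-1)), ℚ(d)) = 0` for all primes `p` and all `d ≥ 1`.

So in the problem's list of known facts the second condition, the vanishing of `H^i(X, ℚ(d))` for
`i < 0` and all `X`, is a consequence of Q1 for all `X`.

Proof. Let `Y` be the `r`-fold projective line over `X`, of dimension `d + r`. The push-forward
along a section of `Y → X` embeds `H^(2d+j)(X_et, ℤ(d))` into `H^(2(d+r)+j)(Y_et, ℤ(d+r))`. For given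
`j ≤ 0` the degree `2(d+r) + j` is in the required range as soon as `r` is large.
-/

set_option autoImplicit false

universe v

namespace Pool.Agent.Results.MP_c71c7a_nt.VanishingFromFiniteGeneration

open Pool.Agent.X308.D Pool.Agent.X308.L

/-- Q1 (degrees `0 ≤ i ≤ 2d`) is equivalent to finite generation in all degrees `i ≤ 2d`, and to
finite generation in the degrees `2d - w(d) ≤ i ≤ 2d` for any given unbounded function `w`; it
implies the vanishing of rational motivic cohomology in negative degrees and weights at least the
dimension, for schemes and for finitely generated fields. -/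
theorem result (M : MotivicData.{v}) (P : PushForward M) (hP : IsFunctorial P)
    (hL : ProjectiveLine) :
    (FiniteGenerationNonneg M ↔ FiniteGeneration M) ∧
    (∀ w : ℕ → ℕ, IsUnbounded w →
      (FiniteGenerationNonneg M ↔ FiniteGenerationInWindow M w)) ∧
    (KnownProperties M → FiniteGenerationNonneg M →
      VanishingOnSchemes M ∧ VanishingOnFields M ∧ VanishingForRationalFunctions M) :=
  ⟨nonneg_iff hP hL, fun w hw => window_iff hP hL w hw, fun hK h => vanishing hP hL hK h⟩

end Pool.Agent.Results.MP_c71c7a_nt.VanishingFromFiniteGeneration
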